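import Mathlib

set_option autoImplicit false

/-!
Definitions for the proof that the relation of a rooted critical code has no induced path on four
vertices (MP_a46c6f_co, note 7046).
-/

namespace Pool.Agent.H44.P4

variable {V : Type}

/-- an induced path `a b c d`; the loops are not restricted -/
def P4 (A : V → V → Prop) (a b c d : V) : Prop :=
  A a b ∧ A b c ∧ A c d ∧ ¬ A a c ∧ ¬ A a d ∧ ¬ A b d

/-- no induced path on four vertices in `D` -/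
def Free (A : V → V → Prop) (D : Finset V) : Prop :=
  ∀ a ∈ D, ∀ b ∈ D, ∀ c ∈ D, ∀ d ∈ D, ¬ P4 A a b c d

/-- `g` is a midpoint of `u` and `v` on the coordinates in `D` -/
def Mid (A : V → V → Prop) (D : Finset V) (u v g : V) : Prop :=
  (A g g ↔ ¬ A u u) ∧ (A g u ↔ ¬ A u u) ∧ (A g v ↔ ¬ A u u) ∧
    ∀ y ∈ D, (A u y ↔ A v y) → (A g y ↔ A u y)

/-- every closed pair of `D` has a midpoint in `D` -/
def Pairs (A : V → V → Prop) (D : Finset V) : Prop :=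
  ∀ u ∈ D, ∀ v ∈ D, (A u u ↔ A v v) → (A u v ↔ ¬ A u u) → ∃ g ∈ D, Mid A D u v g

/-- `g` sees exactly two of the four vertices, and not `{b, c}` or `{a, d}` -/
def Bad (A : V → V → Prop) (a b c d g : V) : Prop :=
  (A g a ∧ A g b ∧ ¬ A g c ∧ ¬ A g d) ∨ (A g a ∧ ¬ A g b ∧ A g c ∧ ¬ A g d) ∨
    (¬ A g a ∧ A g b ∧ ¬ A g c ∧ A g d) ∨ (¬ A g a ∧ ¬ A g b ∧ A g c ∧ A g d)

/-- what is needed from a rooted critical code -/
structure Dict [Fintype V] (e : V) (H : V → V → ZMod 2) (A : V → V → Prop) : Prop where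
  sym : ∀ x y, A x y → A y x
  e0 : ∀ y, ¬ A e y
  pairs : ∀ u v, (A u u ↔ A v v) → (A u v ↔ ¬ A u u) → ∃ g, Mid A Finset.univ u v g
  p4 : ∀ a b c d, P4 A a b c d → ¬ A a a → A b b → A c c → ¬ A d d →
    ∃ g, Bad A a b c d g ∧
      ∀ y, (A a y ↔ A b y) → (A b y ↔ A c y) → (A c y ↔ A d y) → (A g y ↔ A a y)
  inj : ∀ x y, (∀ w, A x w ↔ A y w) → x = y
  leaf : ∀ x y, (∀ w, (A x w ↔ ¬ A y w) ↔ w = x) → x ≠ e → ∀ w, w ≠ x → (H x w = 1 ↔ w = y)

end Pool.Agent.H44.P4
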