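import Pool.Agent.H44.P4.Lemma
import Pool.Agent.H17.P3.Defs

set_option autoImplicit false

/-!
The matrix statement (P3) of the rooted tree theorem (MP_a46c6f_co, notes 6952, 7046).
-/

namespace Pool.Agent.H44.P4

open Classical

variable {X : Type}

theorem zmod2_cases (a : ZMod 2) : a = 0 ∨ a = 1 := by
  revert a
  decide

/-- the relation of a matrix -/
def Rel (M : X → X → ZMod 2) (x y : X) : Prop := M x y = 1

theorem not_rel (M : X → X → ZMod 2) (x y : X) : ¬ Rel M x y ↔ M x y = 0 := by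
  unfold Rel
  rcases zmod2_cases (M x y) with h | h <;> simp [h]

theorem rel_congr {M : X → X → ZMod 2} {x y x' y' : X} (h : M x y = M x' y') :
    Rel M x y ↔ Rel M x' y' := by
  unfold Rel
  rw [h]

theorem eq_of_rel {M : X → X → ZMod 2} {x y x' y' : X} (h : Rel M x y ↔ Rel M x' y') :
    M x y = M x' y' := by
  unfold Rel at h
  rcases zmod2_cases (M x y) with h1 | h1 <;> rcases zmod2_cases (M x' y') with h2 | h2 <;>
    simp [h1, h2] at h ⊢

theorem ne_of_rel {M : X → X → ZMod 2} {x y x' y' : X} (h : Rel M x y ↔ ¬ Rel M x' y') :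
    M x y ≠ M x' y' := by
  intro h'
  rw [rel_congr h'] at h
  tauto

theorem rel_of_ne {M : X → X → ZMod 2} {x y x' y' : X} (h : M x y ≠ M x' y') :
    Rel M x y ↔ ¬ Rel M x' y' := by
  by_contra hcon
  exact h (eq_of_rel (by tauto))

/-- a cylinder -/
def IsCyl (M : X → X → ZMod 2) (C : Finset X) : Prop :=
  ∃ P : Set (X × ZMod 2), ∀ y, y ∈ C ↔ ∀ p ∈ P, M y p.1 = p.2

theorem IsCyl.of_mem {M : X → X → ZMod 2} {C C' : Finset X} (h : IsCyl M C)
    (hs : ∀ x y, M x y = M y x) (w : X) (t : ZMod 2) (hC : ∀ y, y ∈ C' ↔ y ∈ C ∧ M w y = t) :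
    IsCyl M C' := by
  obtain ⟨P, hP⟩ := h
  refine ⟨insert (w, t) P, ?_⟩
  intro y
  rw [hC, hP, hs w y]
  constructor
  · rintro ⟨h1, h2⟩ p hp
    rcases hp with rfl | hp
    · exact h2
    · exact h1 p hp
  · intro h1
    exact ⟨fun p hp => h1 p (Set.mem_insert_of_mem _ hp), h1 (w, t) (Set.mem_insert _ _)⟩

theorem free_of (M : X → X → ZMod 2) (hs : ∀ x y, M x y = M y x)
    (hp : Pool.Agent.H17.P3.Pairs M) (h4 : Pool.Agent.H17.P3.P4Split M) :
    ∀ (n : ℕ) (C : Finset X), C.card = n → IsCyl M C → Free (Rel M) C := by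
  intro n
  induction n using Nat.strong_induction_on with
  | _ n ih =>
    intro C hC hcyl
    by_contra hex
    have hsA : ∀ x y, Rel M x y → Rel M y x := fun x y h => by
      unfold Rel at h ⊢
      rw [hs]
      exact h
    obtain ⟨P, hP⟩ := hcyl
    have hCyl : Cyl (Rel M) C := by
      refine ⟨hsA, ?_, ?_, ?_⟩
      · intro u hu v hv h1 h2
        have e1 : M u u = M v v := eq_of_rel h1
        have e2 : M u v ≠ M u u := ne_of_rel h2
        obtain ⟨g, g1, g2, g3, g5⟩ := hp u v e1 e2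
        have hgC : g ∈ C := by
          rw [hP] at hu hv ⊢
          intro p hpP
          rw [g5 p.1 (by rw [hu p hpP, hv p hpP]), hu p hpP]
        have e3 : (Rel M g g ↔ ¬ Rel M u u) := rel_of_ne g1
        refine ⟨g, hgC, e3, ?_, ?_, ?_⟩
        · rw [rel_congr g2]
          exact e3
        · rw [rel_congr g3]
          exact e3
        · intro y _ hy
          exact rel_congr (g5 y (eq_of_rel hy))
      · rintro w hw ⟨y, hy, hwy⟩
        refine ih _ ?_ _ rfl (IsCyl.of_mem ⟨P, hP⟩ hs w 1 ?_)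
        · rw [← hC]
          apply Finset.card_lt_card
          refine ⟨Finset.filter_subset _ _, ?_⟩
          intro h
          exact hwy (Finset.mem_filter.1 (h hy)).2
        · intro z
          rw [Finset.mem_filter]
          rfl
      · rintro w hw ⟨y, hy, hwy⟩
        refine ih _ ?_ _ rfl (IsCyl.of_mem ⟨P, hP⟩ hs w 0 ?_)
        · rw [← hC]
          apply Finset.card_lt_card
          refine ⟨Finset.filter_subset _ _, ?_⟩
          intro h
          exact (Finset.mem_filter.1 (h hy)).2 hwy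
        · intro z
          rw [Finset.mem_filter, not_rel]
    obtain ⟨a, ha, b, hb, c, hc, d, hd, ⟨e1, e2, e3, e4, e5, e6⟩, l1, l2, l3, l4, hbad⟩ :=
      hCyl.good hex
    obtain ⟨g, ⟨b1, b2⟩, hg⟩ := h4 a b c d ⟨e1, e2, e3, (not_rel _ _ _).1 e4, (not_rel _ _ _).1 e5,
      (not_rel _ _ _).1 e6⟩ ((not_rel _ _ _).1 l1) l2 l3 ((not_rel _ _ _).1 l4)
    have hgC : g ∈ C := by
      rw [hP] at ha hb hc hd ⊢
      intro p hpP
      rw [hg p.1 (by rw [ha p hpP, hb p hpP]) (by rw [ha p hpP, hc p hpP])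
        (by rw [ha p hpP, hd p hpP]), ha p hpP]
    apply hbad g hgC
    have c1 := rel_of_ne b1
    have c2 := rel_of_ne b2
    unfold Bad
    tauto

/-- **(P3)** -/
theorem p3 : Pool.Agent.H17.P3.P3 := by
  intro X _ M hs hp h4 a b c d h
  have : Fintype X := Fintype.ofFinite X
  exact free_of M hs hp h4 _ Finset.univ rfl ⟨∅, by simp⟩ a (Finset.mem_univ _) b
    (Finset.mem_univ _) c (Finset.mem_univ _) d (Finset.mem_univ _)
    ⟨h.ab, h.bc, h.cd, (not_rel _ _ _).2 h.ac, (not_rel _ _ _).2 h.ad, (not_rel _ _ _).2 h.bd⟩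

end Pool.Agent.H44.P4
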