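import Pool.Agent.H44.P4.Defs

set_option autoImplicit false

/-!
Seinsche's theorem and the constant vertex of a path-free relation with midpoints
(MP_a46c6f_co, note 7046, CLAIM A).
-/

namespace Pool.Agent.H44.P4

open Classical

variable {V : Type}

theorem P4.compl {A : V → V → Prop} (hs : ∀ x y, A x y → A y x) {a b c d : V}
    (h : P4 (fun x y => ¬ A x y) a b c d) : P4 A b d a c := by
  obtain ⟨h1, h2, h3, h4, h5, h6⟩ := h
  simp only [not_not] at h4 h5 h6
  exact ⟨h6, hs _ _ h5, h4, fun h => h1 (hs _ _ h), h2, fun h => h3 (hs _ _ h)⟩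

theorem P4.to_compl {A : V → V → Prop} (hs : ∀ x y, A x y → A y x) {a b c d : V}
    (h : P4 A a b c d) : P4 (fun x y => ¬ A x y) b d a c := by
  obtain ⟨h1, h2, h3, h4, h5, h6⟩ := h
  refine ⟨h6, fun h => h5 (hs _ _ h), h4, ?_, ?_, ?_⟩
  · simp only [not_not]
    exact hs _ _ h1
  · simp only [not_not]
    exact h2
  · simp only [not_not]
    exact hs _ _ h3

theorem Free.compl {A : V → V → Prop} (hs : ∀ x y, A x y → A y x) {D : Finset V}
    (h : Free A D) : Free (fun x y => ¬ A x y) D :=
  fun a ha b hb c hc d hd h4 => h b hb d hd a ha c hc (h4.compl hs)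

theorem Free.mono {A : V → V → Prop} {D D' : Finset V} (h : Free A D) (hD : D' ⊆ D) : Free A D' :=
  fun a ha b hb c hc d hd => h a (hD ha) b (hD hb) c (hD hc) d (hD hd)

theorem Mid.compl {A : V → V → Prop} {D : Finset V} {u v g : V} (h : Mid A D u v g) :
    Mid (fun x y => ¬ A x y) D u v g := by
  obtain ⟨h1, h2, h3, h4⟩ := h
  refine ⟨by tauto, by tauto, by tauto, ?_⟩
  intro y hy hh
  have := h4 y hy (by tauto)
  tauto

theorem Mid.of_compl {A : V → V → Prop} {D : Finset V} {u v g : V}
    (h : Mid (fun x y => ¬ A x y) D u v g) : Mid A D u v g := by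
  obtain ⟨h1, h2, h3, h4⟩ := h
  refine ⟨by tauto, by tauto, by tauto, ?_⟩
  intro y hy hh
  have := h4 y hy (by tauto)
  tauto

theorem Pairs.compl {A : V → V → Prop} {D : Finset V} (h : Pairs A D) :
    Pairs (fun x y => ¬ A x y) D := by
  intro u hu v hv h1 h2
  obtain ⟨g, hg, hm⟩ := h u hu v hv (by tauto) (by tauto)
  exact ⟨g, hg, hm.compl⟩

/-- a path-free relation is disconnected, or its complement is -/
theorem seinsche (A : V → V → Prop) (hs : ∀ x y, A x y → A y x) :
    ∀ (n : ℕ) (D : Finset V), D.card = n → 2 ≤ n → Free A D →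
      ∃ S ⊆ D, S.Nonempty ∧ S ≠ D ∧
        ((∀ a ∈ S, ∀ b ∈ D, b ∉ S → ¬ A a b) ∨ (∀ a ∈ S, ∀ b ∈ D, b ∉ S → A a b)) := by
  suffices H : ∀ (n : ℕ) (D : Finset V), D.card = n → 2 ≤ n → ∀ (B : V → V → Prop)
      (_ : ∀ x y, B x y → B y x), Free B D → ∀ S ⊆ D, ∀ v ∈ D, v ∉ S → S.Nonempty →
      S ≠ D.erase v → (∀ a ∈ S, ∀ b ∈ D, b ≠ v → b ∉ S → ¬ B a b) →
      ∃ S ⊆ D, S.Nonempty ∧ S ≠ D ∧
        ((∀ a ∈ S, ∀ b ∈ D, b ∉ S → ¬ B a b) ∨ (∀ a ∈ S, ∀ b ∈ D, b ∉ S → B a b)) by
    intro n
    induction n with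
    | zero => intro D _ h2; omega
    | succ n ih =>
      intro D hD h2 hF
      obtain ⟨v, hv⟩ : D.Nonempty := Finset.card_pos.1 (by omega)
      by_cases hn : n = 1
      · -- two vertices
        have hc : (D.erase v).card = 1 := by rw [Finset.card_erase_of_mem hv, hD]; omega
        obtain ⟨w, hw⟩ := Finset.card_eq_one.1 hc
        have hwD : w ∈ D := Finset.mem_of_mem_erase (by rw [hw]; simp : w ∈ D.erase v)
        have hwv : w ≠ v := Finset.ne_of_mem_erase (by rw [hw]; simp : w ∈ D.erase v)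
        refine ⟨{v}, by simpa using hv, by simp, ?_, ?_⟩
        · intro h
          have : w ∈ ({v} : Finset V) := by rw [h]; exact hwD
          exact hwv (by simpa using this)
        · by_cases hA : A v w
          · right
            intro a ha b hb hbv
            simp only [Finset.mem_singleton] at ha hbv
            subst ha
            have : b ∈ D.erase a := Finset.mem_erase.2 ⟨hbv, hb⟩
            rw [hw, Finset.mem_singleton] at this
            rw [this]
            exact hA
          · left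
            intro a ha b hb hbv
            simp only [Finset.mem_singleton] at ha hbv
            subst ha
            have : b ∈ D.erase a := Finset.mem_erase.2 ⟨hbv, hb⟩
            rw [hw, Finset.mem_singleton] at this
            rw [this]
            exact hA
      · have hn2 : 2 ≤ n := by omega
        have hc : (D.erase v).card = n := by rw [Finset.card_erase_of_mem hv, hD]; omega
        obtain ⟨S, hSD, hS, hSne, hsplit⟩ := ih (D.erase v) hc hn2
          (hF.mono (Finset.erase_subset _ _))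
        have hvS : v ∉ S := fun h => (Finset.notMem_erase v D) (hSD h)
        rcases hsplit with h | h
        · exact H (n + 1) D hD h2 A hs hF S (hSD.trans (Finset.erase_subset _ _)) v hv hvS hS hSne
            (fun a ha b hb hbv hbS => h a ha b (Finset.mem_erase.2 ⟨hbv, hb⟩) hbS)
        · obtain ⟨S', h1, h2', h3, h4⟩ := H (n + 1) D hD h2 (fun x y => ¬ A x y)
            (fun x y hxy hyx => hxy (hs _ _ hyx)) (hF.compl hs) S
            (hSD.trans (Finset.erase_subset _ _)) v hv hvS hS hSne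
            (fun a ha b hb hbv hbS => not_not.2 (h a ha b (Finset.mem_erase.2 ⟨hbv, hb⟩) hbS))
          refine ⟨S', h1, h2', h3, ?_⟩
          rcases h4 with h4 | h4
          · right
            intro a ha b hb hbS
            exact not_not.1 (h4 a ha b hb hbS)
          · left
            exact h4
  intro n D hD h2 B hs hF S hSD v hv hvS hS hSne hno
  -- the case of no edges between S and the rest of D - v
  by_cases hall : ∀ y ∈ D, y ≠ v → B v y
  · refine ⟨{v}, by simpa using hv, by simp, ?_, Or.inr ?_⟩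
    · intro h
      rw [← h] at hD
      simp at hD
      omega
    · intro a ha b hb hbv
      simp only [Finset.mem_singleton] at ha hbv
      subst ha
      exact hall b hb hbv
  push Not at hall
  obtain ⟨y, hyD, hyv, hyB⟩ := hall
  -- general step for a side R of the split
  have key : ∀ R R' : Finset V, R ⊆ D → R' ⊆ D → v ∉ R → v ∉ R' → (∀ b ∈ D, b ≠ v → b ∉ R → b ∈ R') →
      (∀ a ∈ R, ∀ b ∈ R', ¬ B a b) → R'.Nonempty → y ∈ R → Disjoint R R' →
      ∃ S ⊆ D, S.Nonempty ∧ S ≠ D ∧
        ((∀ a ∈ S, ∀ b ∈ D, b ∉ S → ¬ B a b) ∨ (∀ a ∈ S, ∀ b ∈ D, b ∉ S → B a b)) := by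
    intro R R' hRD hR'D hvR hvR' hcov hRR' hR' hyR hdis
    by_cases hz : ∃ z ∈ R', B v z
    · obtain ⟨z, hz, hvz⟩ := hz
      refine ⟨R.filter (fun x => ¬ B v x), (Finset.filter_subset _ _).trans hRD,
        ⟨y, Finset.mem_filter.2 ⟨hyR, hyB⟩⟩, ?_, Or.inl ?_⟩
      · intro h
        have : v ∈ R.filter (fun x => ¬ B v x) := by rw [h]; exact hv
        exact hvR (Finset.mem_filter.1 this).1
      · intro a ha b hb hbS hab
        obtain ⟨haR, hva⟩ := Finset.mem_filter.1 ha
        by_cases hbv : b = v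
        · subst hbv
          exact hva (hs _ _ hab)
        by_cases hbR : b ∈ R
        · have hvb : B v b := by
            by_contra hvb
            exact hbS (Finset.mem_filter.2 ⟨hbR, hvb⟩)
          exact hF a (hRD haR) b hb v hv z (hR'D hz)
            ⟨hab, hs _ _ hvb, hvz, fun h => hva (hs _ _ h), hRR' a haR z hz, hRR' b hbR z hz⟩
        · exact hRR' a haR b (hcov b hb hbv hbR) hab
    · push Not at hz
      refine ⟨R', hR'D, hR', ?_, Or.inl ?_⟩
      · intro h
        exact hvR' (h ▸ hv)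
      · intro a ha b hb hbR' hab
        by_cases hbv : b = v
        · subst hbv
          exact hz a ha (hs _ _ hab)
        · have hbR : b ∈ R := by
            by_contra hbR
            exact hbR' (hcov b hb hbv hbR)
          exact hRR' b hbR a ha (hs _ _ hab)
  let T : Finset V := (D.erase v) \ S
  have hT : T.Nonempty := by
    rw [Finset.nonempty_iff_ne_empty]
    intro h
    apply hSne
    apply Finset.Subset.antisymm
    · intro x hx
      exact Finset.mem_erase.2 ⟨fun h => hvS (h ▸ hx), hSD hx⟩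
    · exact Finset.sdiff_eq_empty_iff_subset.1 h
  have hTD : T ⊆ D := Finset.sdiff_subset.trans (Finset.erase_subset _ _)
  have hvT : v ∉ T := by simp [T]
  have hmemT : ∀ b, b ∈ T ↔ (b ≠ v ∧ b ∈ D) ∧ b ∉ S := by
    intro b
    simp [T]
  have hST : ∀ a ∈ S, ∀ b ∈ T, ¬ B a b := by
    intro a ha b hb
    have := (hmemT b).1 hb
    exact hno a ha b this.1.2 this.1.1 this.2
  by_cases hyS : y ∈ S
  · exact key S T hSD hTD hvS hvT (fun b hb hbv hbS => (hmemT b).2 ⟨⟨hbv, hb⟩, hbS⟩) hST hT hyS
      Finset.disjoint_sdiff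
  · exact key T S hTD hSD hvT hvS
      (fun b hb hbv hbT => by
        by_contra hbS
        exact hbT ((hmemT b).2 ⟨⟨hbv, hb⟩, hbS⟩))
      (fun a ha b hb h => hST b hb a ha (hs _ _ h)) hS ((hmemT y).2 ⟨⟨hyv, hyD⟩, hyS⟩)
      Finset.disjoint_sdiff.symm

/-- no edges between `K` and the rest of `D` -/
def Off (A : V → V → Prop) (D K : Finset V) : Prop := ∀ a ∈ K, ∀ b ∈ D, b ∉ K → ¬ A a b

/-- a component of `D` -/
structure Comp (A : V → V → Prop) (D K : Finset V) : Prop where
  ne : K.Nonempty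
  sub : K ⊆ D
  off : Off A D K
  min : ∀ K' ⊆ K, K'.Nonempty → Off A D K' → K' = K

theorem exists_comp {A : V → V → Prop} (hs : ∀ x y, A x y → A y x) {D : Finset V} {x : V}
    (hx : x ∈ D) : ∃ K, Comp A D K ∧ x ∈ K := by
  have hex : ∃ n, ∃ K ⊆ D, x ∈ K ∧ Off A D K ∧ K.card = n :=
    ⟨_, D, Finset.Subset.refl _, hx, fun a _ b hb hbD => absurd hb hbD, rfl⟩
  obtain ⟨K, hKD, hxK, hoff, hcard⟩ := Nat.find_spec hex
  have hmin : ∀ K' ⊆ D, x ∈ K' → Off A D K' → K.card ≤ K'.card := by
    intro K' h1 h2 h3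
    rw [hcard]
    exact Nat.find_min' hex ⟨K', h1, h2, h3, rfl⟩
  refine ⟨K, ⟨⟨x, hxK⟩, hKD, hoff, ?_⟩, hxK⟩
  intro K' hK'K hne hoff'
  by_cases hxK' : x ∈ K'
  · exact Finset.eq_of_subset_of_card_le hK'K (hmin K' (hK'K.trans hKD) hxK' hoff')
  · exfalso
    have h1 : Off A D (K \ K') := by
      intro a ha b hb hbn hab
      rw [Finset.mem_sdiff] at ha hbn
      by_cases hbK : b ∈ K
      · have hbK' : b ∈ K' := by
          by_contra h
          exact hbn ⟨hbK, h⟩
        exact hoff' b hbK' a (hKD ha.1) ha.2 (hs _ _ hab)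
      · exact hoff a ha.1 b hb hbK hab
    have h2 := hmin (K \ K') (Finset.sdiff_subset.trans hKD) (Finset.mem_sdiff.2 ⟨hxK, hxK'⟩) h1
    have h3 : (K \ K').card < K.card := by
      apply Finset.card_lt_card
      refine ⟨Finset.sdiff_subset, ?_⟩
      intro h
      obtain ⟨w, hw⟩ := hne
      exact (Finset.mem_sdiff.1 (h (hK'K hw))).2 hw
    omega

theorem Comp.pairs {A : V → V → Prop} (hs : ∀ x y, A x y → A y x) {D K : Finset V}
    (hK : Comp A D K) (hF : Free A D) (hP : Pairs A D) : Pairs A K := by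
  intro u hu v hv h1 h2
  obtain ⟨g, hg, hm1, hm2, hm3, hm4⟩ := hP u (hK.sub hu) v (hK.sub hv) h1 h2
  have hgK : g ∈ K := by
    by_cases hl : A u u
    · -- a common neighbour
      have huv : u ≠ v := by
        rintro rfl
        tauto
      have hcard : 2 ≤ K.card := Finset.one_lt_card.2 ⟨u, hu, v, hv, huv⟩
      obtain ⟨S, hSK, hS, hSne, hsp⟩ := seinsche A hs K.card K rfl hcard (hF.mono hK.sub)
      have hcom : ∃ y ∈ K, A u y ∧ A v y := by
        rcases hsp with h | h
        · exfalso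
          apply hSne
          apply hK.min S hSK hS
          intro a ha b hb hbS hab
          by_cases hbK : b ∈ K
          · exact h a ha b hbK hbS hab
          · exact hK.off a (hSK ha) b hb hbK hab
        · by_cases huS : u ∈ S
          · have hvS : v ∈ S := by
              by_contra hvS
              exact absurd (h u huS v hv hvS) (by tauto)
            obtain ⟨y, hyK, hyS⟩ : ∃ y ∈ K, y ∉ S := by
              by_contra hcon
              push Not at hcon
              exact hSne (Finset.Subset.antisymm hSK hcon)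
            exact ⟨y, hyK, h u huS y hyK hyS, h v hvS y hyK hyS⟩
          · have hvS : v ∉ S := by
              intro hvS
              exact absurd (hs _ _ (h v hvS u hu huS)) (by tauto)
            obtain ⟨y, hy⟩ := hS
            exact ⟨y, hSK hy, hs _ _ (h y hy u hu huS), hs _ _ (h y hy v hv hvS)⟩
      obtain ⟨y, hyK, hyu, hyv⟩ := hcom
      by_contra hgK
      have := (hm4 y (hK.sub hyK) (by tauto)).2 hyu
      exact hK.off y hyK g hg hgK (hs _ _ this)
    · by_contra hgK
      exact hK.off u hu g hg hgK (hs _ _ (hm2.2 hl))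
  exact ⟨g, hgK, hm1, hm2, hm3, fun y hy => hm4 y (hK.sub hy)⟩

theorem Comp.sub_of {A : V → V → Prop} {D K S : Finset V} (hK : Comp A D K)
    (hs : ∀ x y, A x y → A y x) {x : V} (hxK : x ∈ K) (hxS : x ∈ S) (hS : Off A D S) : K ⊆ S := by
  have h := hK.min (K ∩ S) Finset.inter_subset_left ⟨x, Finset.mem_inter.2 ⟨hxK, hxS⟩⟩ ?_
  · rw [← h]
    exact Finset.inter_subset_right
  · intro a ha b hb hbn hab
    rw [Finset.mem_inter] at ha hbn
    by_cases hbK : b ∈ K
    · exact hS a ha.2 b hb (fun h => hbn ⟨hbK, h⟩) hab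
    · exact hK.off a ha.1 b hb hbK hab

/-- CLAIM A -/
theorem const_vertex : ∀ (n : ℕ) (A : V → V → Prop) (_ : ∀ x y, A x y → A y x) (D : Finset V),
    D.card = n → D.Nonempty → Free A D → Pairs A D →
      ∃ x ∈ D, (∀ y ∈ D, ¬ A x y) ∨ (∀ y ∈ D, A x y) := by
  intro n
  induction n using Nat.strong_induction_on with
  | _ n ih =>
    -- the disconnected case
    have aux : ∀ (A : V → V → Prop) (_ : ∀ x y, A x y → A y x) (D : Finset V),
        D.card = n → Free A D → Pairs A D → ∀ S ⊆ D, S.Nonempty → S ≠ D → Off A D S →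
        ∃ x ∈ D, (∀ y ∈ D, ¬ A x y) ∨ (∀ y ∈ D, A x y) := by
      intro A hs D hD hF hP S hSD hS hSne hoff
      obtain ⟨x1, hx1⟩ := hS
      obtain ⟨x2, hx2D, hx2S⟩ : ∃ y ∈ D, y ∉ S := by
        by_contra hcon
        push Not at hcon
        exact hSne (Finset.Subset.antisymm hSD hcon)
      obtain ⟨K1, hK1, hx1K⟩ := exists_comp hs (hSD hx1)
      obtain ⟨K2, hK2, hx2K⟩ := exists_comp hs hx2D
      have hoff2 : Off A D (D \ S) := by
        intro a ha b hb hbn hab
        rw [Finset.mem_sdiff] at ha hbn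
        have hbS : b ∈ S := by
          by_contra h
          exact hbn ⟨hb, h⟩
        exact hoff b hbS a ha.1 ha.2 (hs _ _ hab)
      have hK1S : K1 ⊆ S := hK1.sub_of hs hx1K hx1 hoff
      have hK2S : K2 ⊆ D \ S := hK2.sub_of hs hx2K (Finset.mem_sdiff.2 ⟨hx2D, hx2S⟩) hoff2
      have hc1 : K1.card < n := by
        rw [← hD]
        apply Finset.card_lt_card
        exact ⟨hK1.sub, fun h => hx2S (hK1S (h hx2D))⟩
      have hc2 : K2.card < n := by
        rw [← hD]
        apply Finset.card_lt_card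
        exact ⟨hK2.sub, fun h => (Finset.mem_sdiff.1 (hK2S (h (hSD hx1)))).2 hx1⟩
      obtain ⟨f1, hf1, hcon1⟩ := ih _ hc1 A hs K1 rfl hK1.ne (hF.mono hK1.sub)
        (hK1.pairs hs hF hP)
      obtain ⟨f2, hf2, hcon2⟩ := ih _ hc2 A hs K2 rfl hK2.ne (hF.mono hK2.sub)
        (hK2.pairs hs hF hP)
      rcases hcon1 with hcon1 | hcon1
      · refine ⟨f1, hK1.sub hf1, Or.inl ?_⟩
        intro y hy
        by_cases hyK : y ∈ K1
        · exact hcon1 y hyK
        · exact hK1.off f1 hf1 y hy hyK
      rcases hcon2 with hcon2 | hcon2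
      · refine ⟨f2, hK2.sub hf2, Or.inl ?_⟩
        intro y hy
        by_cases hyK : y ∈ K2
        · exact hcon2 y hyK
        · exact hK2.off f2 hf2 y hy hyK
      have h11 := hcon1 f1 hf1
      have h22 := hcon2 f2 hf2
      have hf2K1 : f2 ∉ K1 := fun h => (Finset.mem_sdiff.1 (hK2S hf2)).2 (hK1S h)
      have h12 : ¬ A f1 f2 := hK1.off f1 hf1 f2 (hK2.sub hf2) hf2K1
      obtain ⟨g, hg, hm1, hm2, hm3, hm4⟩ := hP f1 (hK1.sub hf1) f2 (hK2.sub hf2) (by tauto)
        (by tauto)
      have hgK1 : g ∉ K1 := fun h => absurd (hs _ _ (hcon1 g h)) (by tauto)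
      have hgK2 : g ∉ K2 := fun h => absurd (hs _ _ (hcon2 g h)) (by tauto)
      refine ⟨g, hg, Or.inl ?_⟩
      intro y hy hgy
      by_cases hy1 : y ∈ K1
      · exact hK1.off y hy1 g hg hgK1 (hs _ _ hgy)
      by_cases hy2 : y ∈ K2
      · exact hK2.off y hy2 g hg hgK2 (hs _ _ hgy)
      have h3 := hK1.off f1 hf1 y hy hy1
      have h4 := hK2.off f2 hf2 y hy hy2
      exact h3 ((hm4 y hy (by tauto)).1 hgy)
    intro A hs D hD hne hF hP
    by_cases h2 : 2 ≤ n
    · obtain ⟨S, hSD, hS, hSne, hsp⟩ := seinsche A hs n D hD h2 hF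
      rcases hsp with h | h
      · exact aux A hs D hD hF hP S hSD hS hSne h
      · obtain ⟨x, hx, hx'⟩ := aux (fun x y => ¬ A x y) (fun x y hxy hyx => hxy (hs _ _ hyx)) D hD
          (hF.compl hs) hP.compl S hSD hS hSne
          (fun a ha b hb hbS => not_not.2 (h a ha b hb hbS))
        refine ⟨x, hx, ?_⟩
        rcases hx' with hx' | hx'
        · right
          intro y hy
          exact not_not.1 (hx' y hy)
        · left
          exact hx'
    · obtain ⟨x, hx⟩ := hne
      have hcard : D.card = 1 := by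
        have := Finset.card_pos.2 ⟨x, hx⟩
        omega
      obtain ⟨x', hx'⟩ := Finset.card_eq_one.1 hcard
      refine ⟨x', by rw [hx']; simp, ?_⟩
      rw [hx']
      simp only [Finset.mem_singleton, forall_eq]
      tauto

/-- a component in which every vertex sees something has a full vertex -/
theorem Comp.full {A : V → V → Prop} (hs : ∀ x y, A x y → A y x) {D K : Finset V}
    (hK : Comp A D K) (hF : Free A D) (hP : Pairs A D) (hx : ∀ x ∈ K, ∃ y ∈ D, A x y) :
    ∃ f ∈ K, ∀ y ∈ K, A f y := by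
  obtain ⟨f, hf, hcon⟩ := const_vertex K.card A hs K rfl hK.ne (hF.mono hK.sub)
    (hK.pairs hs hF hP)
  rcases hcon with hcon | hcon
  · exfalso
    obtain ⟨y, hy, hfy⟩ := hx f hf
    by_cases hyK : y ∈ K
    · exact hcon y hyK hfy
    · exact hK.off f hf y hy hyK hfy
  · exact ⟨f, hf, hcon⟩

end Pool.Agent.H44.P4
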