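import Pool.Agent.H44.P4.Claim

set_option autoImplicit false

/-!
In a minimal cylinder which contains an induced path there is one with loops 0110 and no bad
vertex (MP_a46c6f_co, note 7046, LEMMA).
-/

namespace Pool.Agent.H44.P4

open Classical

variable {V : Type}

/-- `D` is closed under midpoints in `C` -/
theorem pairs_of_closed {A : V → V → Prop} {C D : Finset V} (hP : Pairs A C) (hD : D ⊆ C)
    (h : ∀ u ∈ D, ∀ v ∈ D, ∀ g ∈ C, Mid A C u v g → g ∈ D) : Pairs A D := by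
  intro u hu v hv h1 h2
  obtain ⟨g, hg, hm⟩ := hP u (hD hu) v (hD hv) h1 h2
  exact ⟨g, h u hu v hv g hg hm, hm.1, hm.2.1, hm.2.2.1, fun y hy => hm.2.2.2 y (hD hy)⟩

/-- the hypotheses on the minimal cylinder -/
structure Cyl (A : V → V → Prop) (C : Finset V) : Prop where
  sym : ∀ x y, A x y → A y x
  pairs : Pairs A C
  min1 : ∀ w ∈ C, (∃ y ∈ C, ¬ A w y) → Free A (C.filter (fun y => A w y))
  min0 : ∀ w ∈ C, (∃ y ∈ C, A w y) → Free A (C.filter (fun y => ¬ A w y))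

section
variable {A : V → V → Prop} {C : Finset V}

/-- (1) -/
theorem Cyl.plus (h : Cyl A C) {w : V} (hw : w ∈ C) (hl : ¬ A w w) (hne : ∃ y ∈ C, A w y) :
    ∃ x ∈ C, A x x ∧ A x w ∧ ∀ y ∈ C, A w y → A x y := by
  have hs := h.sym
  obtain ⟨y0, hy0, hwy0⟩ := hne
  have hF := h.min1 w hw ⟨w, hw, hl⟩
  have hP : Pairs A (C.filter (fun y => A w y)) := by
    apply pairs_of_closed h.pairs (Finset.filter_subset _ _)
    intro u hu v hv g hg hm
    rw [Finset.mem_filter] at hu hv ⊢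
    refine ⟨hg, ?_⟩
    have h1 := hs _ _ hu.2
    have h2 := hs _ _ hv.2
    exact hs _ _ ((hm.2.2.2 w hw (by tauto)).2 h1)
  obtain ⟨x, hx, hcon⟩ := const_vertex _ A hs _ rfl ⟨y0, Finset.mem_filter.2 ⟨hy0, hwy0⟩⟩ hF hP
  have hx' := hx
  rw [Finset.mem_filter] at hx
  rcases hcon with hcon | hcon
  · exfalso
    have hxx := hcon x hx'
    obtain ⟨g, hg, hm1, hm2, hm3, hm4⟩ := h.pairs w hw x hx.1 (by tauto) (by
      have := hx.2
      tauto)
    have hgw : A g w := hm2.2 hl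
    have hgx : A g x := hm3.2 hl
    exact hcon g (Finset.mem_filter.2 ⟨hg, hs _ _ hgw⟩) (hs _ _ hgx)
  · refine ⟨x, hx.1, hcon x hx', hs _ _ hx.2, ?_⟩
    intro y hy hwy
    exact hcon y (Finset.mem_filter.2 ⟨hy, hwy⟩)

/-- (2) -/
theorem Cyl.iso (h : Cyl A C) (hfull : ∀ w ∈ C, ∃ y ∈ C, ¬ A w y) {b c : V} (hb : b ∈ C)
    (hc : c ∈ C) (hbc : A b c) (hcc : A c c) (hne : ∃ y ∈ C, A b y ∧ ¬ A c y) :
    ∃ a ∈ C, ¬ A a a ∧ A b a ∧ ¬ A c a ∧ ∀ y ∈ C, A b y → ¬ A c y → ¬ A a y := by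
  have hs := h.sym
  obtain ⟨y0, hy0, hby0, hcy0⟩ := hne
  let D : Finset V := (C.filter (fun y => A b y)).filter (fun y => ¬ A c y)
  have hmem : ∀ y, y ∈ D ↔ (y ∈ C ∧ A b y) ∧ ¬ A c y := by
    intro y
    simp only [D, Finset.mem_filter]
  have hF : Free A D := (h.min1 b hb (hfull b hb)).mono (Finset.filter_subset _ _)
  have hDC : D ⊆ C := fun y hy => ((hmem y).1 hy).1.1
  have hclosed : ∀ u ∈ D, ∀ v ∈ D, ∀ g ∈ C, Mid A C u v g → g ∈ D := by
    intro u hu v hv g hg hm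
    rw [hmem] at hu hv ⊢
    have h1 : A u b := hs _ _ hu.1.2
    have h2 : A v b := hs _ _ hv.1.2
    have h3 : ¬ A u c := fun hh => hu.2 (hs _ _ hh)
    have h4 : ¬ A v c := fun hh => hv.2 (hs _ _ hh)
    refine ⟨⟨hg, hs _ _ ((hm.2.2.2 b hb (by tauto)).2 h1)⟩, ?_⟩
    intro hcg
    exact h3 ((hm.2.2.2 c hc (by tauto)).1 (hs _ _ hcg))
  have hP : Pairs A D := pairs_of_closed h.pairs hDC hclosed
  obtain ⟨a, ha, hcon⟩ := const_vertex _ A hs D rfl ⟨y0, (hmem y0).2 ⟨⟨hy0, hby0⟩, hcy0⟩⟩ hF hP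
  have ha' := (hmem a).1 ha
  rcases hcon with hcon | hcon
  · exact ⟨a, ha'.1.1, hcon a ha, ha'.1.2, ha'.2,
      fun y hy h1 h2 => hcon y ((hmem y).2 ⟨⟨hy, h1⟩, h2⟩)⟩
  · exfalso
    have haa := hcon a ha
    have hac : ¬ A a c := fun hh => ha'.2 (hs _ _ hh)
    obtain ⟨g, hg, hm1, hm2, hm3, hm4⟩ := h.pairs a ha'.1.1 c hc (by tauto) (by tauto)
    have hgb : A g b := (hm4 b hb (by
      have h1 := hs _ _ ha'.1.2
      have h2 := hs _ _ hbc
      tauto)).2 (hs _ _ ha'.1.2)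
    have hgc : ¬ A g c := by tauto
    have hga : ¬ A g a := by tauto
    exact hga (hs _ _ (hcon g ((hmem g).2 ⟨⟨hg, hs _ _ hgb⟩, fun hh => hgc (hs _ _ hh)⟩)))

/-- the case without a full vertex -/
theorem Cyl.main (h : Cyl A C) (hfull : ∀ w ∈ C, ∃ y ∈ C, ¬ A w y) (hex : ¬ Free A C) :
    ∃ a ∈ C, ∃ b ∈ C, ∃ c ∈ C, ∃ d ∈ C, P4 A a b c d ∧ ¬ A a a ∧ A b b ∧ A c c ∧ ¬ A d d ∧
      ∀ g ∈ C, ¬ Bad A a b c d g := by
  have hs := h.sym
  -- an inclusion-maximal neighbourhood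
  have hCne : ∃ w ∈ C, ∃ y ∈ C, A w y := by
    by_contra hcon
    push Not at hcon
    exact hex (fun a ha b hb c _ d _ h4 => hcon a ha b hb h4.1)
  obtain ⟨b, hb, hbmax⟩ := Finset.exists_max_image C (fun w => (C.filter (fun y => A w y)).card)
    (by obtain ⟨w, hw, _⟩ := hCne; exact ⟨w, hw⟩)
  -- maximality in the form of inclusions
  have hmax : ∀ x ∈ C, (∀ y ∈ C, A b y → A x y) → ∀ y ∈ C, A x y → A b y := by
    intro x hx hsub y hy hxy
    by_contra hby
    have h1 : (C.filter (fun y => A b y)).card < (C.filter (fun y => A x y)).card := by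
      apply Finset.card_lt_card
      refine ⟨?_, ?_⟩
      · intro z hz
        rw [Finset.mem_filter] at hz ⊢
        exact ⟨hz.1, hsub z hz.1 hz.2⟩
      · intro hh
        exact hby (Finset.mem_filter.1 (hh (Finset.mem_filter.2 ⟨hy, hxy⟩))).2
    exact absurd (hbmax x hx) (not_le.2 h1)
  have hbne : ∃ y ∈ C, A b y := by
    by_contra hcon
    push Not at hcon
    obtain ⟨w, hw, y, hy, hwy⟩ := hCne
    have h1 := hbmax w hw
    have h2 : (C.filter (fun y => A b y)) = ∅ := by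
      rw [Finset.filter_eq_empty_iff]
      intro y hy
      exact hcon y hy
    rw [h2, Finset.card_empty, Nat.le_zero, Finset.card_eq_zero] at h1
    have : y ∈ (C.filter (fun y => A w y)) := Finset.mem_filter.2 ⟨hy, hwy⟩
    rw [h1] at this
    exact absurd this (Finset.notMem_empty _)
  have hbb : A b b := by
    by_contra hbb
    obtain ⟨x, hx, hxx, hxb, hsub⟩ := h.plus hb hbb hbne
    exact hbb (hmax x hx hsub b hb hxb)
  -- G = C - N(b)
  let G : Finset V := C.filter (fun y => ¬ A b y)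
  have hGmem : ∀ y, y ∈ G ↔ y ∈ C ∧ ¬ A b y := by
    intro y
    simp only [G, Finset.mem_filter]
  have hGC : G ⊆ C := Finset.filter_subset _ _
  have hGF : Free A G := h.min0 b hb hbne
  have hGP : Pairs A G := by
    apply pairs_of_closed h.pairs hGC
    intro u hu v hv g hg hm
    rw [hGmem] at hu hv ⊢
    refine ⟨hg, ?_⟩
    have h1 : ¬ A u b := fun hh => hu.2 (hs _ _ hh)
    have h2 : ¬ A v b := fun hh => hv.2 (hs _ _ hh)
    intro hbg
    exact h1 ((hm.2.2.2 b hb (by tauto)).1 (hs _ _ hbg))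
  have hNF : Free A (C.filter (fun y => A b y)) := h.min1 b hb (hfull b hb)
  -- an edge between N(b) and G
  have hedge : ∃ y ∈ C, A b y ∧ ∃ x ∈ C, ¬ A b x ∧ A y x := by
    by_contra hcon
    push Not at hcon
    apply hex
    intro p hp q hq r hr s hs' h4
    have hstep : ∀ y ∈ C, ∀ x ∈ C, A y x → (A b y ↔ A b x) := by
      intro y hy x hx hyx
      constructor
      · intro hby
        by_contra hbx
        exact hcon y hy hby x hx hbx hyx
      · intro hbx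
        by_contra hby
        exact hcon x hx hbx y hy hby (hs _ _ hyx)
    have e1 := hstep p hp q hq h4.1
    have e2 := hstep q hq r hr h4.2.1
    have e3 := hstep r hr s hs' h4.2.2.1
    by_cases hbp : A b p
    · exact hNF p (Finset.mem_filter.2 ⟨hp, hbp⟩) q (Finset.mem_filter.2 ⟨hq, e1.1 hbp⟩) r
        (Finset.mem_filter.2 ⟨hr, e2.1 (e1.1 hbp)⟩) s
        (Finset.mem_filter.2 ⟨hs', e3.1 (e2.1 (e1.1 hbp))⟩) h4
    · have hbq : ¬ A b q := fun hh => hbp (e1.2 hh)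
      have hbr : ¬ A b r := fun hh => hbq (e2.2 hh)
      have hbs : ¬ A b s := fun hh => hbr (e3.2 hh)
      exact hGF p ((hGmem p).2 ⟨hp, hbp⟩) q ((hGmem q).2 ⟨hq, hbq⟩) r ((hGmem r).2 ⟨hr, hbr⟩) s
        ((hGmem s).2 ⟨hs', hbs⟩) h4
  -- c1 with loop 1, adjacent to b, with a neighbour outside N(b)
  obtain ⟨c1, hc1, hc11, hc1b, x1, hx1, hbx1, hc1x1⟩ : ∃ c ∈ C, A c c ∧ A c b ∧
      ∃ x ∈ C, ¬ A b x ∧ A c x := by
    obtain ⟨y, hy, hby, x, hx, hbx, hyx⟩ := hedge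
    by_cases hyy : A y y
    · exact ⟨y, hy, hyy, hs _ _ hby, x, hx, hbx, hyx⟩
    · obtain ⟨c, hc, hcc, hcy, hsub⟩ := h.plus hy hyy ⟨x, hx, hyx⟩
      exact ⟨c, hc, hcc, hsub b hb (hs _ _ hby), x, hx, hbx, hsub x hx hyx⟩
  -- (3)
  obtain ⟨d, hd, hdd, hbd, hdne, hdb⟩ : ∃ d ∈ C, ¬ A d d ∧ ¬ A b d ∧ (∃ y ∈ C, A d y) ∧
      ∀ y ∈ C, A d y → A b y := by
    obtain ⟨d', hd', hdd', hc1d', hbd', hdiso⟩ := h.iso hfull hc1 hb hc1b hbb
      ⟨x1, hx1, hc1x1, hbx1⟩
    obtain ⟨q, hq, hqq, hqd', hqsub⟩ := h.plus hd' hdd' ⟨c1, hc1, hs _ _ hc1d'⟩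
    have hqc : A q c1 := hqsub c1 hc1 (hs _ _ hc1d')
    have hqb : A b q := by
      by_contra hbq
      exact hdiso q hq (hs _ _ hqc) hbq (hs _ _ hqd')
    by_cases hin : ∀ y ∈ C, A d' y → A b y
    · exact ⟨d', hd', hdd', hbd', ⟨c1, hc1, hs _ _ hc1d'⟩, hin⟩
    push Not at hin
    obtain ⟨w0, hw0, hdw0, hbw0⟩ := hin
    have hd'G : d' ∈ G := (hGmem d').2 ⟨hd', hbd'⟩
    obtain ⟨K, hK, hd'K⟩ := exists_comp hs hd'G
    have hsee : ∀ x ∈ K, ∃ y ∈ G, A x y := by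
      intro x hx
      by_contra hcon
      push Not at hcon
      have h1 := hK.sub_of hs hx (Finset.mem_singleton_self x) (by
        intro a ha y hy hyn
        rw [Finset.mem_singleton] at ha
        subst ha
        exact hcon y hy)
      have h2 := h1 hd'K
      rw [Finset.mem_singleton] at h2
      rw [← h2] at hcon
      exact hcon w0 ((hGmem w0).2 ⟨hw0, hbw0⟩) hdw0
    obtain ⟨f, hf, hfK⟩ := hK.full hs hGF hGP hsee
    have hfG := hK.sub hf
    have hfC := (hGmem f).1 hfG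
    have hff := hfK f hf
    have hfb : ¬ A f b := fun hh => hfC.2 (hs _ _ hh)
    obtain ⟨g, hg, hm1, hm2, hm3, hm4⟩ := h.pairs f hfC.1 b hb (by tauto) (by tauto)
    have hgb : ¬ A b g := fun hh => absurd (hs _ _ hh) (by tauto)
    have hgf : ¬ A g f := by tauto
    have hgG : g ∈ G := (hGmem g).2 ⟨hg, hgb⟩
    have hgK : g ∉ K := fun hh => hgf (hs _ _ (hfK g hh))
    have hgsub : ∀ y ∈ C, A g y → A b y := by
      intro y hy hgy
      by_contra hby
      have hyG : y ∈ G := (hGmem y).2 ⟨hy, hby⟩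
      by_cases hyK : y ∈ K
      · exact hK.off y hyK g hgG hgK (hs _ _ hgy)
      · have h1 : ¬ A f y := hK.off f hf y hyG hyK
        exact h1 ((hm4 y hy (by tauto)).1 hgy)
    refine ⟨g, hg, by tauto, hgb, ⟨q, hq, ?_⟩, hgsub⟩
    have hfq : A f q := hs _ _ (hqsub f hfC.1 (hs _ _ (hfK d' hd'K)))
    exact (hm4 q hq (by tauto)).2 hfq
  -- (4)
  obtain ⟨c, hc, hcc, hcd, hcsub⟩ := h.plus hd hdd hdne
  have hbc : A b c := hdb c hc (hs _ _ hcd)
  have hne : ∃ y ∈ C, A b y ∧ ¬ A c y := by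
    by_contra hcon
    push Not at hcon
    exact hbd (hmax c hc hcon d hd hcd)
  obtain ⟨a, ha, haa, hba, hca, haiso⟩ := h.iso hfull hb hc hbc hcc hne
  have hda : ¬ A d a := fun hh => hca (hcsub a ha hh)
  refine ⟨a, ha, b, hb, c, hc, d, hd, ⟨hs _ _ hba, hbc, hcd, fun hh => hca (hs _ _ hh),
    fun hh => hda (hs _ _ hh), hbd⟩, haa, hbb, hcc, hdd, ?_⟩
  -- (5)
  rintro g hg (⟨g1, g2, g3, g4⟩ | ⟨g1, g2, g3, g4⟩ | ⟨g1, g2, g3, g4⟩ | ⟨g1, g2, g3, g4⟩)
  · exact haiso g hg (hs _ _ g2) (fun hh => g3 (hs _ _ hh)) (hs _ _ g1)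
  · -- {a, c}
    let E : Finset V := C.filter (fun y => ¬ A d y)
    have hEmem : ∀ y, y ∈ E ↔ y ∈ C ∧ ¬ A d y := by
      intro y
      simp only [E, Finset.mem_filter]
    have hEC : E ⊆ C := Finset.filter_subset _ _
    have hEF : Free A E := h.min0 d hd hdne
    have hEP : Pairs A E := by
      apply pairs_of_closed h.pairs hEC
      intro u hu v hv x hx hm
      rw [hEmem] at hu hv ⊢
      refine ⟨hx, ?_⟩
      have h1 : ¬ A u d := fun hh => hu.2 (hs _ _ hh)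
      have h2 : ¬ A v d := fun hh => hv.2 (hs _ _ hh)
      intro hdx
      exact h1 ((hm.2.2.2 d hd (by tauto)).1 (hs _ _ hdx))
    have haE : a ∈ E := (hEmem a).2 ⟨ha, hda⟩
    have hbE : b ∈ E := (hEmem b).2 ⟨hb, fun hh => hbd (hs _ _ hh)⟩
    have hgE : g ∈ E := (hEmem g).2 ⟨hg, fun hh => g4 (hs _ _ hh)⟩
    obtain ⟨K, hK, hbK⟩ := exists_comp hs hbE
    have haK : a ∈ K := by
      by_contra hh
      exact hK.off b hbK a haE hh hba
    have hgK : g ∈ K := by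
      by_contra hh
      exact hK.off a haK g hgE hh (hs _ _ g1)
    have hsee : ∀ x ∈ K, ∃ y ∈ E, A x y := by
      intro x hx
      by_contra hcon
      push Not at hcon
      have h1 := hK.sub_of hs hx (Finset.mem_singleton_self x) (by
        intro a ha y hy hyn
        rw [Finset.mem_singleton] at ha
        subst ha
        exact hcon y hy)
      have h2 := h1 hbK
      rw [Finset.mem_singleton] at h2
      rw [← h2] at hcon
      exact hcon b hbE hbb
    obtain ⟨f, hf, hfK⟩ := hK.full hs hEF hEP hsee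
    have hfE := (hEmem f).1 (hK.sub hf)
    have hff := hfK f hf
    have hfb := hfK b hbK
    have hfa := hfK a haK
    have hfg := hfK g hgK
    have hcf : A c f := by
      by_contra hcf
      exact haiso f hfE.1 (hs _ _ hfb) hcf (hs _ _ hfa)
    have hbf : ∀ y ∈ C, A b y → ¬ A d y → A f y := by
      intro y hy hby hdy
      have hyE : y ∈ E := (hEmem y).2 ⟨hy, hdy⟩
      have hyK : y ∈ K := by
        by_contra hh
        exact hK.off b hbK y hyE hh hby
      exact hfK y hyK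
    obtain ⟨v, hv, hdv, hfv⟩ : ∃ v ∈ C, A d v ∧ ¬ A f v := by
      by_contra hcon
      push Not at hcon
      have h1 : ∀ y ∈ C, A b y → A f y := by
        intro y hy hby
        by_cases hdy : A d y
        · exact hcon y hy hdy
        · exact hbf y hy hby hdy
      exact g2 (hs _ _ (hmax f hfE.1 h1 g hg hfg))
    have hbv : A b v := hdb v hv hdv
    have hcv : A c v := hcsub v hv hdv
    exact h.min1 c hc ⟨a, ha, hca⟩ f (Finset.mem_filter.2 ⟨hfE.1, hcf⟩) b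
      (Finset.mem_filter.2 ⟨hb, hs _ _ hbc⟩) v (Finset.mem_filter.2 ⟨hv, hcv⟩) d
      (Finset.mem_filter.2 ⟨hd, hcd⟩)
      ⟨hfb, hbv, hs _ _ hdv, hfv, fun hh => hfE.2 (hs _ _ hh), hbd⟩
  · exact g3 (hs _ _ (hcsub g hg (hs _ _ g4)))
  · exact g2 (hs _ _ (hdb g hg (hs _ _ g4)))

/-- LEMMA -/
theorem Cyl.good (h : Cyl A C) (hex : ¬ Free A C) :
    ∃ a ∈ C, ∃ b ∈ C, ∃ c ∈ C, ∃ d ∈ C, P4 A a b c d ∧ ¬ A a a ∧ A b b ∧ A c c ∧ ¬ A d d ∧
      ∀ g ∈ C, ¬ Bad A a b c d g := by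
  have hs := h.sym
  by_cases hfull : ∀ w ∈ C, ∃ y ∈ C, ¬ A w y
  · exact h.main hfull hex
  · push Not at hfull
    obtain ⟨w, hw, hwfull⟩ := hfull
    have hs' : ∀ x y, ¬ A x y → ¬ A y x := fun x y hxy hyx => hxy (hs _ _ hyx)
    have h' : Cyl (fun x y => ¬ A x y) C := by
      refine ⟨hs', h.pairs.compl, ?_, ?_⟩
      · intro x hx hy
        simp only [not_not] at hy
        convert (h.min0 x hx hy).compl hs
      · intro x hx hy
        have := (h.min1 x hx hy).compl hs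
        simpa only [not_not] using this
    have hex' : ¬ Free (fun x y => ¬ A x y) C := by
      intro hF
      apply hex
      intro a ha b hb c hc d hd h4
      exact hF b hb d hd a ha c hc (h4.to_compl hs)
    obtain ⟨a, ha, b, hb, c, hc, d, hd, h4, l1, l2, l3, l4, hbad⟩ := h'.main (by
      intro x hx
      refine ⟨w, hw, ?_⟩
      simp only [not_not]
      exact hs _ _ (hwfull x hx)) hex'
    refine ⟨b, hb, d, hd, a, ha, c, hc, h4.compl hs, l2, not_not.1 l4, not_not.1 l1, l3, ?_⟩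
    intro g hg hb'
    apply hbad g hg
    unfold Bad at hb' ⊢
    simp only [not_not]
    tauto

end

end Pool.Agent.H44.P4
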